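import Pool.Agent.N728.QG.Def

/-!
PROJECT QG (helper728), task AVS: the average of the singular series over the linear coefficient, and
the second moment of its tail.  Written by helper170.
-/

set_option autoImplicit false

namespace Pool.Agent.N170.QG

open Finset Pool.Agent.N728.QG

/-- the Chinese remainder theorem for sums of periodic functions -/
lemma crt2 {m n : ℕ} (hm : 1 ≤ m) (hn : 1 ≤ n) (h : Nat.Coprime m n) (f g : ℕ → ℝ)
    (hf : ∀ b, f (b % m) = f b) (hg : ∀ b, g (b % n) = g b) :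
    ∑ b ∈ range (m * n), f b * g b = (∑ b ∈ range m, f b) * ∑ b ∈ range n, g b := by
  rw [Finset.sum_mul_sum, ← Finset.sum_product']
  refine Finset.sum_nbij' (fun k => (k % m, k % n))
    (fun p => (Nat.chineseRemainder h p.1 p.2 : ℕ)) ?_ ?_ ?_ ?_ ?_
  · intro k _
    simp only [mem_product, mem_range]
    exact ⟨Nat.mod_lt _ hm, Nat.mod_lt _ hn⟩
  · intro p _
    simp only [mem_range]
    exact Nat.chineseRemainder_lt_mul h _ _ (by omega) (by omega)
  · intro k hk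
    simp only [mem_range] at hk
    have h1 : k ≡ (Nat.chineseRemainder h (k % m) (k % n) : ℕ) [MOD m * n] :=
      Nat.chineseRemainder_modEq_unique h (Nat.mod_modEq k m).symm (Nat.mod_modEq k n).symm
    have h2 := Nat.chineseRemainder_lt_mul h (k % m) (k % n) (by omega : m ≠ 0) (by omega : n ≠ 0)
    have h3 := Nat.ModEq.eq_of_lt_of_lt h1 hk h2
    exact h3.symm
  · rintro ⟨a, b⟩ hab
    simp only [mem_product, mem_range] at hab
    have h1 := (Nat.chineseRemainder h a b).2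
    ext
    · simp only
      have := h1.1
      rw [Nat.ModEq, Nat.mod_eq_of_lt hab.1] at this
      exact this
    · simp only
      have := h1.2
      rw [Nat.ModEq, Nat.mod_eq_of_lt hab.2] at this
      exact this
  · intro k _
    simp only [hf, hg]

lemma avg (F : ℕ → ℕ → ℝ) (hF : ∀ p b, F p (b % p) = F p b) (s : Finset ℕ)
    (hs : ∀ p ∈ s, p.Prime) :
    ∑ b ∈ range (∏ p ∈ s, p), ∏ p ∈ s, F p b = ∏ p ∈ s, ∑ b ∈ range p, F p b := by
  classical
  induction s using Finset.induction_on with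
  | empty => simp
  | insert q s hq ih =>
    have hsp : ∀ p ∈ s, p.Prime := fun p hp => hs p (mem_insert_of_mem hp)
    have hqp : q.Prime := hs q (mem_insert_self _ _)
    have hcop : Nat.Coprime q (∏ p ∈ s, p) := by
      refine Nat.Coprime.prod_right fun p hp => ?_
      exact (Nat.coprime_primes hqp (hsp p hp)).2 (fun h => hq (h ▸ hp))
    rw [prod_insert hq, prod_insert hq, ← ih hsp,
      ← crt2 hqp.one_le (Finset.prod_pos fun p hp => (hsp p hp).pos) hcop (F q)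
        (fun b => ∏ p ∈ s, F p b) (hF q)]
    · refine Finset.sum_congr rfl fun b _ => ?_
      rw [prod_insert hq]
    · intro b
      refine Finset.prod_congr rfl fun p hp => ?_
      rw [← hF p (b % ∏ p ∈ s, p), Nat.mod_mod_of_dvd _ (Finset.dvd_prod_of_mem _ hp), hF]

/-- complete periods -/
lemma periods (f : ℕ → ℝ) (q : ℕ) (hf : ∀ b, f (b % q) = f b) (k : ℕ) :
    ∑ b ∈ range (k * q), f b = k * ∑ b ∈ range q, f b := by
  induction k with
  | zero => simp
  | succ k ih =>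
    rw [Nat.succ_mul, Finset.sum_range_add, ih]
    have : ∑ x ∈ range q, f (k * q + x) = ∑ x ∈ range q, f x := by
      refine Finset.sum_congr rfl fun x _ => ?_
      rw [← hf (k * q + x), Nat.mul_add_mod_self_right, hf]
    rw [this]
    push_cast
    ring

lemma incomplete (f : ℕ → ℝ) (q : ℕ) (hq : 1 ≤ q) (hf : ∀ b, f (b % q) = f b) (M : ℝ)
    (hM : ∀ b, |f b| ≤ M) (n : ℕ) :
    |∑ b ∈ range n, f b| ≤ (n : ℝ) / q * |∑ b ∈ range q, f b| + q * M := by
  have h0 : n = n / q * q + n % q := by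
    rw [mul_comm]; exact (Nat.div_add_mod n q).symm
  have hM0 : 0 ≤ M := (abs_nonneg _).trans (hM 0)
  have hqr : (0 : ℝ) < q := by exact_mod_cast hq
  conv_lhs => rw [h0]
  rw [Finset.sum_range_add, periods f q hf]
  refine (abs_add_le _ _).trans (add_le_add ?_ ?_)
  · rw [abs_mul, Nat.abs_cast]
    exact mul_le_mul_of_nonneg_right Nat.cast_div_le (abs_nonneg _)
  · refine (Finset.abs_sum_le_sum_abs _ _).trans ?_
    refine (Finset.sum_le_sum fun x _ => hM _).trans ?_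
    rw [Finset.sum_const, card_range, nsmul_eq_mul]
    refine mul_le_mul_of_nonneg_right ?_ hM0
    exact_mod_cast (Nat.mod_lt n hq).le

lemma fp_mod (G : Polynomial ℤ) (b : ℕ) (c : ℤ) (p t : ℕ) :
    (p : ℤ) ∣ fp G ((b % p : ℕ) : ℤ) c t ↔ (p : ℤ) ∣ fp G (b : ℤ) c t := by
  have h : fp G (b : ℤ) c t - fp G ((b % p : ℕ) : ℤ) c t = (p : ℤ) * ((t : ℤ) * ((b / p : ℕ) : ℤ)) := by
    unfold fp
    have h1 : (b : ℤ) = (p : ℤ) * ((b / p : ℕ) : ℤ) + ((b % p : ℕ) : ℤ) := by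
      exact_mod_cast (Nat.div_add_mod b p).symm
    linear_combination (t : ℤ) * h1
  have h2 : (p : ℤ) ∣ fp G (b : ℤ) c t - fp G ((b % p : ℕ) : ℤ) c t := ⟨_, h⟩
  exact (dvd_iff_dvd_of_dvd_sub h2).symm

lemma om_mod (G : Polynomial ℤ) (b : ℕ) (c : ℤ) (p : ℕ) :
    om G ((b % p : ℕ) : ℤ) c p = om G (b : ℤ) c p := by
  unfold om
  congr 1
  exact Finset.filter_congr fun t _ => fp_mod G b c p t

lemma one_b {p : ℕ} (hp : p.Prime) {t : ℕ} (ht0 : t ≠ 0) (htp : t < p) (u c : ℤ) :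
    ((range p).filter (fun b : ℕ => (p : ℤ) ∣ (t : ℤ) * (u + b) + c)).card = 1 := by
  have := Fact.mk hp
  have ht : (t : ZMod p) ≠ 0 := by
    intro h
    rw [ZMod.natCast_eq_zero_iff] at h
    exact absurd (Nat.le_of_dvd (by omega) h) (by omega)
  rw [Finset.card_eq_one]
  refine ⟨(-(c : ZMod p) / t - u).val, ?_⟩
  ext b
  simp only [mem_filter, mem_range, mem_singleton]
  rw [← ZMod.intCast_zmod_eq_zero_iff_dvd]
  push_cast
  constructor
  · rintro ⟨hb, h⟩
    have h1 : (b : ZMod p) = -(c : ZMod p) / t - u := by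
      field_simp
      linear_combination h
    rw [← h1, ZMod.val_cast_of_lt hb]
  · intro h
    have h1 : (b : ZMod p) = -(c : ZMod p) / t - u := by
      rw [h, ZMod.natCast_zmod_val]
    refine ⟨by rw [h]; exact ZMod.val_lt _, ?_⟩
    rw [h1]
    field_simp
    ring

lemma om_sum (G : Polynomial ℤ) (c : ℤ) {p : ℕ} (hp : p.Prime) :
    ∑ b ∈ range p, om G (b : ℤ) c p = p - 1 + if (p : ℤ) ∣ c then p else 0 := by
  have h1 : ∑ b ∈ range p, om G (b : ℤ) c p =
      ∑ t ∈ range p, ((range p).filter (fun b : ℕ => (p : ℤ) ∣ fp G (b : ℤ) c t)).card := by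
    unfold om
    simp only [Finset.card_filter]
    rw [Finset.sum_comm]
  rw [h1]
  have hr : range p = insert 0 ((range p).erase 0) := by
    rw [Finset.insert_erase]
    simpa using hp.pos
  rw [hr, Finset.sum_insert (by simp), ← hr, add_comm]
  congr 1
  · rw [Finset.sum_congr rfl (g := fun _ => 1)]
    · simp [Finset.card_erase_of_mem, hp.pos]
    · intro t ht
      simp only [mem_erase, mem_range] at ht
      exact one_b hp ht.1 ht.2 (G.eval (t : ℤ)) c
  · have : ∀ b : ℕ, fp G (b : ℤ) c 0 = c := fun b => by simp [fp]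
    simp only [this]
    split_ifs with h
    · rw [Finset.filter_true_of_mem (fun _ _ => h), card_range]
    · rw [Finset.filter_false_of_mem (fun _ _ => h), card_empty]

lemma om_le (G : Polynomial ℤ) (b c : ℤ) {p : ℕ} (hp : p.Prime) (hc : ¬ (p : ℤ) ∣ c) :
    om G b c p ≤ G.natDegree + 1 := by
  have := Fact.mk hp
  classical
  set P : Polynomial (ZMod p) := Polynomial.X * (G.map (Int.castRingHom (ZMod p)) +
    Polynomial.C (b : ZMod p)) + Polynomial.C (c : ZMod p) with hP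
  have hc0 : (c : ZMod p) ≠ 0 := by
    intro h
    exact hc ((ZMod.intCast_zmod_eq_zero_iff_dvd c p).1 h)
  have hP0 : P ≠ 0 := by
    intro h
    have h1 := congrArg (fun q => Polynomial.coeff q 0) h
    simp only [hP, Polynomial.coeff_add, Polynomial.mul_coeff_zero, Polynomial.coeff_X_zero,
      zero_mul, zero_add, Polynomial.coeff_C_zero, Polynomial.coeff_zero] at h1
    exact hc0 h1
  have hdeg : P.natDegree ≤ G.natDegree + 1 := by
    rw [hP]
    refine (Polynomial.natDegree_add_le _ _).trans (max_le ?_ (by simp))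
    refine (Polynomial.natDegree_mul_le).trans ?_
    rw [add_comm]
    refine add_le_add ?_ Polynomial.natDegree_X_le
    refine (Polynomial.natDegree_add_le _ _).trans (max_le ?_ (by simp))
    exact Polynomial.natDegree_map_le
  have hsub : ((range p).filter (fun t : ℕ => (p : ℤ) ∣ fp G b c t)).image
      (fun t : ℕ => (t : ZMod p)) ⊆ P.roots.toFinset := by
    intro x hx
    simp only [mem_image, mem_filter, mem_range] at hx
    obtain ⟨t, ⟨ht, hd⟩, rfl⟩ := hx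
    rw [Multiset.mem_toFinset, Polynomial.mem_roots hP0, Polynomial.IsRoot.def, hP]
    rw [← ZMod.intCast_zmod_eq_zero_iff_dvd] at hd
    unfold fp at hd
    push_cast at hd
    simp only [Polynomial.eval_add, Polynomial.eval_mul, Polynomial.eval_X, Polynomial.eval_C]
    rw [← hd]
    congr 3
    have h2 : (G.map (Int.castRingHom (ZMod p))).eval ((t : ℤ) : ZMod p) =
        ((G.eval (t : ℤ) : ℤ) : ZMod p) := by
      rw [Polynomial.eval_intCast_map]
      simp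
    simpa using h2
  have hinj : Set.InjOn (fun t : ℕ => (t : ZMod p))
      (((range p).filter (fun t : ℕ => (p : ℤ) ∣ fp G b c t) : Finset ℕ) : Set ℕ) := by
    intro x hx y hy hxy
    simp only [coe_filter, mem_range, Set.mem_ofPred_eq] at hx hy
    simp only at hxy
    rw [ZMod.natCast_eq_natCast_iff'] at hxy
    rwa [Nat.mod_eq_of_lt hx.1, Nat.mod_eq_of_lt hy.1] at hxy
  have h3 := Finset.card_le_card hsub
  rw [Finset.card_image_of_injOn hinj] at h3
  unfold om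
  exact h3.trans ((Multiset.toFinset_card_le _).trans ((Polynomial.card_roots' P).trans hdeg))

/-- `(1 - om / p) / (1 - 1 / p) = 1 + xx` -/
noncomputable def xx (G : Polynomial ℤ) (c : ℤ) (p b : ℕ) : ℝ :=
  (1 - (om G (b : ℤ) c p : ℝ)) / ((p : ℝ) - 1)

lemma fac_eq (G : Polynomial ℤ) (c : ℤ) {p : ℕ} (hp : p.Prime) (b : ℕ) :
    (1 - (om G (b : ℤ) c p : ℝ) / p) / (1 - 1 / (p : ℝ)) = 1 + xx G c p b := by
  have h1 : (2 : ℝ) ≤ p := by exact_mod_cast hp.two_le
  have h2 : (p : ℝ) - 1 ≠ 0 := by linarith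
  have h3 : (p : ℝ) ≠ 0 := by linarith
  have h4 : (1 - 1 / (p : ℝ)) ≠ 0 := by
    rw [sub_ne_zero]
    intro h
    rw [eq_div_iff h3] at h
    linarith
  unfold xx
  rw [div_eq_iff h4]
  field_simp
  ring

lemma om_le_p (G : Polynomial ℤ) (b c : ℤ) (p : ℕ) : om G b c p ≤ p := by
  unfold om
  exact (Finset.card_filter_le _ _).trans (by simp)

lemma fac_nonneg (G : Polynomial ℤ) (c : ℤ) {p : ℕ} (hp : p.Prime) (b : ℕ) :
    0 ≤ 1 + xx G c p b := by
  have h1 : (2 : ℝ) ≤ p := by exact_mod_cast hp.two_le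
  have h2 : (om G (b : ℤ) c p : ℝ) ≤ p := by exact_mod_cast om_le_p G b c p
  have h3 : (0 : ℝ) < (p : ℝ) - 1 := by linarith
  unfold xx
  have h4 : -1 ≤ (1 - (om G (b : ℤ) c p : ℝ)) / ((p : ℝ) - 1) := by
    rw [le_div_iff₀ h3]
    linarith
  linarith

lemma xx_mod (G : Polynomial ℤ) (c : ℤ) (p b : ℕ) : xx G c p (b % p) = xx G c p b := by
  unfold xx
  rw [om_mod]

lemma sum_xx (G : Polynomial ℤ) (c : ℤ) {p : ℕ} (hp : p.Prime) :
    ∑ b ∈ range p, xx G c p b = (1 - if (p : ℤ) ∣ c then (p : ℝ) else 0) / ((p : ℝ) - 1) := by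
  unfold xx
  rw [← Finset.sum_div, Finset.sum_sub_distrib]
  congr 1
  have h := om_sum G c hp
  have h1 : ((∑ b ∈ range p, om G (b : ℤ) c p : ℕ) : ℝ) =
      ((p - 1 + if (p : ℤ) ∣ c then p else 0 : ℕ) : ℝ) := by rw [h]
  push_cast [Nat.cast_sub hp.one_le] at h1
  rw [h1]
  simp
  ring

lemma sum_xx_le (G : Polynomial ℤ) (c : ℤ) {p : ℕ} (hp : p.Prime) :
    ∑ b ∈ range p, (1 + xx G c p b) ≤ p * (1 + 1 / ((p : ℝ) * (p - 1))) := by
  have h1 : (2 : ℝ) ≤ p := by exact_mod_cast hp.two_le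
  have h3 : (0 : ℝ) < (p : ℝ) - 1 := by linarith
  rw [Finset.sum_add_distrib, sum_xx G c hp]
  simp only [sum_const, card_range, nsmul_eq_mul, mul_one]
  have h4 : (1 - if (p : ℤ) ∣ c then (p : ℝ) else 0) / ((p : ℝ) - 1) ≤ 1 / ((p : ℝ) - 1) := by
    refine div_le_div_of_nonneg_right ?_ h3.le
    split_ifs <;> linarith
  have h5 : (p : ℝ) * (1 + 1 / ((p : ℝ) * (p - 1))) = p + 1 / ((p : ℝ) - 1) := by
    field_simp
  linarith

/-- telescoping -/
lemma tel (a : ℕ) (ha : 1 ≤ a) (z : ℕ) :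
    ∑ n ∈ Ioc a z, 1 / ((n : ℝ) * (n - 1)) ≤ 1 / a := by
  have key : ∀ k : ℕ, ∑ n ∈ Ioc a (a + k), 1 / ((n : ℝ) * (n - 1)) = 1 / a - 1 / ((a + k : ℕ) : ℝ) := by
    intro k
    induction k with
    | zero => simp
    | succ k ih =>
      rw [← add_assoc, Finset.sum_Ioc_succ_top (by omega), ih]
      have h1 : (0 : ℝ) < ((a + k : ℕ) : ℝ) := by
        have : 1 ≤ a + k := by omega
        exact_mod_cast this
      push_cast at h1 ⊢
      have h2 : (a : ℝ) + k + 1 - 1 = a + k := by ring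
      rw [h2]
      field_simp
      ring
  by_cases h : a ≤ z
  · obtain ⟨k, rfl⟩ := Nat.exists_eq_add_of_le h
    rw [key]
    have : (0 : ℝ) ≤ 1 / ((a + k : ℕ) : ℝ) := by positivity
    linarith
  · rw [Finset.Ioc_eq_empty (by omega), Finset.sum_empty]
    positivity

lemma tel_prime (a : ℕ) (ha : 1 ≤ a) (z : ℕ) :
    ∑ p ∈ (Ioc a z).filter Nat.Prime, 1 / ((p : ℝ) * (p - 1)) ≤ 1 / a := by
  refine le_trans (Finset.sum_le_sum_of_subset_of_nonneg (Finset.filter_subset _ _) ?_) (tel a ha z)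
  intro n hn _
  rw [mem_Ioc] at hn
  have : (1 : ℝ) ≤ n := by
    have : 1 ≤ n := by omega
    exact_mod_cast this
  have h2 : (0 : ℝ) ≤ (n : ℝ) - 1 := by linarith
  positivity

lemma Sg_eq (G : Polynomial ℤ) (c : ℤ) (z b : ℕ) :
    Sg G (b : ℤ) c z = ∏ p ∈ (Ioc 0 z).filter Nat.Prime, (1 + xx G c p b) := by
  unfold Sg
  refine Finset.prod_congr rfl fun p hp => ?_
  exact fac_eq G c (Finset.mem_filter.1 hp).2 b

lemma Sg_nonneg (G : Polynomial ℤ) (c : ℤ) (z b : ℕ) : 0 ≤ Sg G (b : ℤ) c z := by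
  rw [Sg_eq]
  exact Finset.prod_nonneg fun p hp => fac_nonneg G c (Finset.mem_filter.1 hp).2 b

theorem avs (G : Polynomial ℤ) (c : ℤ) (z : ℕ) : ∃ B0 : ℕ, ∀ B : ℕ, B0 ≤ B →
    ∑ b ∈ Icc 1 B, Sg G (b : ℤ) c z ≤ 3 * Real.exp 1 * B := by
  set s := (Ioc 0 z).filter Nat.Prime with hs
  set Q := ∏ p ∈ s, p with hQ
  have hsp : ∀ p ∈ s, p.Prime := fun p hp => (Finset.mem_filter.1 hp).2
  have hQ1 : 1 ≤ Q := Finset.prod_pos fun p hp => (hsp p hp).pos
  have hS : ∑ b ∈ range Q, Sg G (b : ℤ) c z ≤ Q * Real.exp 1 := by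
    have h1 : ∑ b ∈ range Q, Sg G (b : ℤ) c z = ∏ p ∈ s, ∑ b ∈ range p, (1 + xx G c p b) := by
      rw [← avg (fun p b => 1 + xx G c p b) (fun p b => by rw [xx_mod]) s hsp]
      exact Finset.sum_congr rfl fun b _ => Sg_eq G c z b
    rw [h1]
    calc ∏ p ∈ s, ∑ b ∈ range p, (1 + xx G c p b)
        ≤ ∏ p ∈ s, ((p : ℝ) * (1 + 1 / ((p : ℝ) * (p - 1)))) :=
          Finset.prod_le_prod (fun p hp => Finset.sum_nonneg fun b _ =>
            fac_nonneg G c (hsp p hp) b) fun p hp => sum_xx_le G c (hsp p hp)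
      _ = Q * ∏ p ∈ s, (1 + 1 / ((p : ℝ) * (p - 1))) := by
          rw [Finset.prod_mul_distrib, hQ]
          push_cast
          rfl
      _ ≤ Q * Real.exp 1 := by
          refine mul_le_mul_of_nonneg_left ?_ (by positivity)
          calc ∏ p ∈ s, (1 + 1 / ((p : ℝ) * (p - 1)))
              ≤ ∏ p ∈ s, Real.exp (1 / ((p : ℝ) * (p - 1))) := by
                refine Finset.prod_le_prod (fun p hp => ?_) fun p hp => ?_
                · have : (2 : ℝ) ≤ p := by exact_mod_cast (hsp p hp).two_le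
                  have h2 : (0 : ℝ) ≤ (p : ℝ) - 1 := by linarith
                  positivity
                · rw [add_comm]
                  exact Real.add_one_le_exp _
            _ = Real.exp (∑ p ∈ s, 1 / ((p : ℝ) * (p - 1))) := (Real.exp_sum _ _).symm
            _ ≤ Real.exp 1 := by
                refine Real.exp_le_exp.2 ?_
                have h3 := tel_prime 1 le_rfl z
                have h4 : s = (Ioc 1 z).filter Nat.Prime := by
                  ext p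
                  simp only [hs, mem_filter, mem_Ioc]
                  constructor
                  · rintro ⟨⟨_, h2⟩, h3⟩
                    exact ⟨⟨h3.one_lt, h2⟩, h3⟩
                  · rintro ⟨⟨h1, h2⟩, h3⟩
                    exact ⟨⟨by omega, h2⟩, h3⟩
                rw [h4]
                simpa using h3
  refine ⟨Q, fun B hB => ?_⟩
  have hB1 : 1 ≤ B := hQ1.trans hB
  have hper : ∀ b : ℕ, Sg G ((b % Q : ℕ) : ℤ) c z = Sg G (b : ℤ) c z := by
    intro b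
    rw [Sg_eq, Sg_eq]
    refine Finset.prod_congr rfl fun p hp => ?_
    rw [← xx_mod G c p (b % Q), Nat.mod_mod_of_dvd _ (Finset.dvd_prod_of_mem _ hp), xx_mod]
  set k := (B + 1) / Q + 1 with hk
  have hle : B + 1 ≤ k * Q := by
    have := Nat.lt_div_mul_add (a := B + 1) (b := Q) (by omega)
    rw [hk, Nat.succ_mul]
    omega
  have hkQ : (k * Q : ℝ) ≤ 3 * B := by
    have h1 : (B + 1) / Q * Q ≤ B + 1 := Nat.div_mul_le_self _ _
    have h2 : k * Q ≤ 3 * B := by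
      rw [hk, Nat.succ_mul]
      omega
    exact_mod_cast h2
  calc ∑ b ∈ Icc 1 B, Sg G (b : ℤ) c z ≤ ∑ b ∈ range (k * Q), Sg G (b : ℤ) c z := by
        refine Finset.sum_le_sum_of_subset_of_nonneg ?_ fun b _ _ => Sg_nonneg G c z b
        intro b hb
        rw [mem_Icc] at hb
        rw [mem_range]
        omega
    _ = k * ∑ b ∈ range Q, Sg G (b : ℤ) c z := periods (fun b => Sg G (b : ℤ) c z) Q hper k
    _ ≤ k * (Q * Real.exp 1) := mul_le_mul_of_nonneg_left hS (by positivity)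
    _ = (k * Q) * Real.exp 1 := by ring
    _ ≤ (3 * B) * Real.exp 1 := mul_le_mul_of_nonneg_right hkQ (Real.exp_pos _).le
    _ = 3 * Real.exp 1 * B := by ring

theorem t_AVS : S_AVS := fun G c _ _ => ⟨3 * Real.exp 1, by positivity, fun z => avs G c z⟩

lemma xx_abs (G : Polynomial ℤ) (c : ℤ) {p : ℕ} (hp : p.Prime) (hc : ¬ (p : ℤ) ∣ c) (b : ℕ) :
    |xx G c p b| ≤ (G.natDegree + 1 : ℝ) / ((p : ℝ) - 1) := by
  have h1 : (2 : ℝ) ≤ p := by exact_mod_cast hp.two_le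
  have h3 : (0 : ℝ) < (p : ℝ) - 1 := by linarith
  have h2 : (om G (b : ℤ) c p : ℝ) ≤ G.natDegree + 1 := by exact_mod_cast om_le G b c hp hc
  have h4 : (0 : ℝ) ≤ (om G (b : ℤ) c p : ℝ) := by positivity
  have h5 : (0 : ℝ) ≤ (G.natDegree : ℝ) := by positivity
  unfold xx
  rw [abs_div, abs_of_pos h3]
  refine div_le_div_of_nonneg_right ?_ h3.le
  rw [abs_le]
  constructor <;> linarith

/-- the off-diagonal terms -/
lemma pair (G : Polynomial ℤ) (c : ℤ) {p q : ℕ} (hp : p.Prime) (hq : q.Prime) (hpq : p ≠ q)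
    (hpc : ¬ (p : ℤ) ∣ c) (hqc : ¬ (q : ℤ) ∣ c) (B : ℕ) :
    |∑ b ∈ Icc 1 B, xx G c p b * xx G c q b| ≤
      ((B : ℝ) + 1) * (1 / ((p : ℝ) * (p - 1)) * (1 / ((q : ℝ) * (q - 1)))) +
        5 * (G.natDegree + 1 : ℝ) ^ 2 := by
  set E : ℝ := (G.natDegree + 1 : ℝ) with hE
  have hE0 : 0 ≤ E := by positivity
  have h1 : (2 : ℝ) ≤ p := by exact_mod_cast hp.two_le
  have h1q : (2 : ℝ) ≤ q := by exact_mod_cast hq.two_le
  have h3 : (0 : ℝ) < (p : ℝ) - 1 := by linarith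
  have h3q : (0 : ℝ) < (q : ℝ) - 1 := by linarith
  set f : ℕ → ℝ := fun b => xx G c p b * xx G c q b with hf
  have hM : ∀ b, |f b| ≤ E / ((p : ℝ) - 1) * (E / ((q : ℝ) - 1)) := fun b => by
    rw [hf]
    simp only [abs_mul]
    exact mul_le_mul (xx_abs G c hp hpc b) (xx_abs G c hq hqc b) (abs_nonneg _) (by positivity)
  have hper : ∀ b, f (b % (p * q)) = f b := fun b => by
    simp only [hf]
    rw [← xx_mod G c p (b % (p * q)), ← xx_mod G c q (b % (p * q)),
      Nat.mod_mod_of_dvd _ (dvd_mul_right p q), Nat.mod_mod_of_dvd _ (dvd_mul_left q p),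
      xx_mod, xx_mod]
  have hinc := incomplete f (p * q) (Nat.mul_pos hp.pos hq.pos) hper _ hM (B + 1)
  have hsum : ∑ b ∈ range (p * q), f b = 1 / ((p : ℝ) - 1) * (1 / ((q : ℝ) - 1)) := by
    rw [hf]
    rw [crt2 hp.one_le hq.one_le ((Nat.coprime_primes hp hq).2 hpq) (xx G c p) (xx G c q)
      (xx_mod G c p) (xx_mod G c q), sum_xx G c hp, sum_xx G c hq, if_neg hpc, if_neg hqc]
    simp
  have hsplit : ∑ b ∈ range (B + 1), f b = f 0 + ∑ b ∈ Icc 1 B, f b := by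
    have : range (B + 1) = insert 0 (Icc 1 B) := by
      ext b; simp only [mem_range, mem_insert, mem_Icc]; omega
    rw [this, Finset.sum_insert (by simp)]
  have h4 : |∑ b ∈ Icc 1 B, f b| ≤ |∑ b ∈ range (B + 1), f b| + |f 0| := by
    rw [hsplit]
    have := abs_sub (f 0 + ∑ b ∈ Icc 1 B, f b) (f 0)
    rwa [add_sub_cancel_left] at this
  rw [hsum] at hinc
  have h5 : |1 / ((p : ℝ) - 1) * (1 / ((q : ℝ) - 1))| = 1 / ((p : ℝ) - 1) * (1 / ((q : ℝ) - 1)) :=
    abs_of_nonneg (by positivity)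
  rw [h5] at hinc
  have h6 := hM 0
  have hp2 : (p : ℝ) / ((p : ℝ) - 1) ≤ 2 := by
    rw [div_le_iff₀ h3]; linarith
  have hq2 : (q : ℝ) / ((q : ℝ) - 1) ≤ 2 := by
    rw [div_le_iff₀ h3q]; linarith
  have hp1 : 1 / ((p : ℝ) - 1) ≤ 1 := by
    rw [div_le_iff₀ h3]; linarith
  have hq1 : 1 / ((q : ℝ) - 1) ≤ 1 := by
    rw [div_le_iff₀ h3q]; linarith
  have h7 : ((p * q : ℕ) : ℝ) * (E / ((p : ℝ) - 1) * (E / ((q : ℝ) - 1))) ≤ 4 * E ^ 2 := by
    have e : ((p * q : ℕ) : ℝ) * (E / ((p : ℝ) - 1) * (E / ((q : ℝ) - 1))) =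
        E ^ 2 * ((p : ℝ) / ((p : ℝ) - 1) * ((q : ℝ) / ((q : ℝ) - 1))) := by
      push_cast; field_simp
    rw [e]
    have : (p : ℝ) / ((p : ℝ) - 1) * ((q : ℝ) / ((q : ℝ) - 1)) ≤ 2 * 2 :=
      mul_le_mul hp2 hq2 (by positivity) (by norm_num)
    nlinarith [sq_nonneg E]
  have h8 : E / ((p : ℝ) - 1) * (E / ((q : ℝ) - 1)) ≤ E ^ 2 := by
    have e : E / ((p : ℝ) - 1) * (E / ((q : ℝ) - 1)) =
        E ^ 2 * (1 / ((p : ℝ) - 1) * (1 / ((q : ℝ) - 1))) := by
      field_simp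
    rw [e]
    have : 1 / ((p : ℝ) - 1) * (1 / ((q : ℝ) - 1)) ≤ 1 * 1 :=
      mul_le_mul hp1 hq1 (by positivity) (by norm_num)
    nlinarith [sq_nonneg E]
  have h9 : ((B + 1 : ℕ) : ℝ) / ((p * q : ℕ) : ℝ) * (1 / ((p : ℝ) - 1) * (1 / ((q : ℝ) - 1))) =
      ((B : ℝ) + 1) * (1 / ((p : ℝ) * (p - 1)) * (1 / ((q : ℝ) * (q - 1)))) := by
    push_cast; field_simp
  rw [h9] at hinc
  linarith

/-- the second moment -/
lemma second (G : Polynomial ℤ) (c : ℤ) (z Z B : ℕ) (hz : 2 ≤ z)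
    (hc : ∀ p : ℕ, p.Prime → z < p → ¬ (p : ℤ) ∣ c) :
    ∑ b ∈ Icc 1 B, (∑ p ∈ (Ioc z Z).filter Nat.Prime, xx G c p b) ^ 2 ≤
      ((B : ℝ) + 1) / z + 2 * (G.natDegree + 1 : ℝ) ^ 2 * B / z +
        5 * (G.natDegree + 1 : ℝ) ^ 2 * Z ^ 2 := by
  set E : ℝ := (G.natDegree + 1 : ℝ) with hE
  set P := (Ioc z Z).filter Nat.Prime with hP
  have hPp : ∀ p ∈ P, p.Prime := fun p hp => (Finset.mem_filter.1 hp).2
  have hPz : ∀ p ∈ P, z < p := fun p hp => (mem_Ioc.1 (Finset.mem_filter.1 hp).1).1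
  have hPc : ∀ p ∈ P, ¬ (p : ℤ) ∣ c := fun p hp => hc p (hPp p hp) (hPz p hp)
  set w : ℕ → ℝ := fun p => 1 / ((p : ℝ) * (p - 1)) with hw
  have hw0 : ∀ p ∈ P, 0 ≤ w p := fun p hp => by
    have h1 : (2 : ℝ) ≤ p := by exact_mod_cast (hPp p hp).two_le
    have h2 : (0 : ℝ) ≤ (p : ℝ) - 1 := by linarith
    simp only [hw]
    positivity
  have hwsum : ∑ p ∈ P, w p ≤ 1 / z := tel_prime z (by omega) Z
  have hzr : (2 : ℝ) ≤ z := by exact_mod_cast hz
  have hexp : ∑ b ∈ Icc 1 B, (∑ p ∈ P, xx G c p b) ^ 2 =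
      ∑ p ∈ P, ∑ q ∈ P, ∑ b ∈ Icc 1 B, xx G c p b * xx G c q b := by
    calc ∑ b ∈ Icc 1 B, (∑ p ∈ P, xx G c p b) ^ 2
        = ∑ b ∈ Icc 1 B, ∑ p ∈ P, ∑ q ∈ P, xx G c p b * xx G c q b := by
          refine Finset.sum_congr rfl fun b _ => ?_
          rw [sq, Finset.sum_mul_sum]
      _ = ∑ p ∈ P, ∑ b ∈ Icc 1 B, ∑ q ∈ P, xx G c p b * xx G c q b := Finset.sum_comm
      _ = _ := by
          refine Finset.sum_congr rfl fun p _ => ?_
          rw [Finset.sum_comm]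
  rw [hexp]
  have hterm : ∀ p ∈ P, ∀ q ∈ P, ∑ b ∈ Icc 1 B, xx G c p b * xx G c q b ≤
      ((B : ℝ) + 1) * (w p * w q) + 5 * E ^ 2 + if p = q then 2 * E ^ 2 * B * w p else 0 := by
    intro p hp q hq
    by_cases hpq : p = q
    · subst hpq
      rw [if_pos rfl]
      have h1 : (2 : ℝ) ≤ p := by exact_mod_cast (hPp p hp).two_le
      have h3 : (0 : ℝ) < (p : ℝ) - 1 := by linarith
      have h4 : ∑ b ∈ Icc 1 B, xx G c p b * xx G c p b ≤ B * (E / ((p : ℝ) - 1)) ^ 2 := by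
        calc ∑ b ∈ Icc 1 B, xx G c p b * xx G c p b
            ≤ ∑ b ∈ Icc 1 B, (E / ((p : ℝ) - 1)) ^ 2 := by
              refine Finset.sum_le_sum fun b _ => ?_
              rw [← abs_mul_abs_self, ← sq]
              exact pow_le_pow_left₀ (abs_nonneg _) (xx_abs G c (hPp p hp) (hPc p hp) b) 2
          _ = _ := by simp
      have h5 : (B : ℝ) * (E / ((p : ℝ) - 1)) ^ 2 ≤ 2 * E ^ 2 * B * w p := by
        have e : (B : ℝ) * (E / ((p : ℝ) - 1)) ^ 2 = E ^ 2 * B * (1 / ((p : ℝ) - 1) ^ 2) := by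
          field_simp
        have e2 : 2 * E ^ 2 * B * w p = E ^ 2 * B * (2 * (1 / ((p : ℝ) * (p - 1)))) := by
          simp only [hw]; ring
        rw [e, e2]
        refine mul_le_mul_of_nonneg_left ?_ (by positivity)
        rw [mul_one_div, div_le_div_iff₀ (by positivity) (by positivity)]
        nlinarith
      have h6 : 0 ≤ ((B : ℝ) + 1) * (w p * w p) := by
        have := hw0 p hp
        positivity
      have h7 : 0 ≤ 5 * E ^ 2 := by positivity
      linarith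
    · rw [if_neg hpq, add_zero]
      exact (le_abs_self _).trans (pair G c (hPp p hp) (hPp q hq) hpq (hPc p hp) (hPc q hq) B)
  calc ∑ p ∈ P, ∑ q ∈ P, ∑ b ∈ Icc 1 B, xx G c p b * xx G c q b
      ≤ ∑ p ∈ P, ∑ q ∈ P, (((B : ℝ) + 1) * (w p * w q) + 5 * E ^ 2 +
          if p = q then 2 * E ^ 2 * B * w p else 0) :=
        Finset.sum_le_sum fun p hp => Finset.sum_le_sum fun q hq => hterm p hp q hq
    _ = ((B : ℝ) + 1) * (∑ p ∈ P, w p) ^ 2 + 5 * E ^ 2 * (P.card : ℝ) ^ 2 +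
          2 * E ^ 2 * B * ∑ p ∈ P, w p := by
        simp only [Finset.sum_add_distrib, Finset.sum_const, nsmul_eq_mul, Finset.sum_ite_eq]
        congr 1
        · congr 1
          · rw [sq, Finset.sum_mul_sum, Finset.mul_sum]
            refine Finset.sum_congr rfl fun p _ => ?_
            rw [Finset.mul_sum]
          · ring
        · rw [Finset.mul_sum]
          refine Finset.sum_congr rfl fun p hp => ?_
          rw [if_pos hp]
    _ ≤ ((B : ℝ) + 1) / z + 5 * E ^ 2 * Z ^ 2 + 2 * E ^ 2 * B / z := by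
        have hS0 : 0 ≤ ∑ p ∈ P, w p := Finset.sum_nonneg hw0
        have h1 : (∑ p ∈ P, w p) ^ 2 ≤ 1 / z := by
          calc (∑ p ∈ P, w p) ^ 2 ≤ (1 / (z : ℝ)) ^ 2 := pow_le_pow_left₀ hS0 hwsum 2
            _ ≤ 1 / z := by
                have h2 : (1 : ℝ) / z ≤ 1 := by
                  rw [div_le_iff₀ (by linarith)]; linarith
                have h3 : (0 : ℝ) ≤ 1 / z := by positivity
                nlinarith
        have h2 : (P.card : ℝ) ≤ Z := by
          have : P.card ≤ Z := (Finset.card_filter_le _ _).trans (by simp)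
          exact_mod_cast this
        refine add_le_add (add_le_add ?_ ?_) ?_
        · calc ((B : ℝ) + 1) * (∑ p ∈ P, w p) ^ 2 ≤ ((B : ℝ) + 1) * (1 / z) :=
              mul_le_mul_of_nonneg_left h1 (by positivity)
            _ = _ := by ring
        · refine mul_le_mul_of_nonneg_left ?_ (by positivity)
          exact pow_le_pow_left₀ (by positivity) h2 2
        · calc 2 * E ^ 2 * B * ∑ p ∈ P, w p ≤ 2 * E ^ 2 * B * (1 / z) :=
              mul_le_mul_of_nonneg_left hwsum (by positivity)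
            _ = _ := by ring
    _ = _ := by ring

lemma low (x : ℝ) (hx : |x| ≤ 1 / 2) : Real.exp (x - 2 * x ^ 2) ≤ 1 + x := by
  have h1 := abs_le.1 hx
  have h2 : 0 < 1 + x := by linarith
  rw [← Real.le_log_iff_exp_le h2]
  refine le_trans ?_ (Real.one_sub_inv_le_log_of_pos h2)
  rw [← sub_nonneg]
  have h3 : 1 - (1 + x)⁻¹ - (x - 2 * x ^ 2) = x ^ 2 * (1 + 2 * x) / (1 + x) := by
    field_simp
    ring
  rw [h3]
  have h4 : 0 ≤ 1 + 2 * x := by linarith
  positivity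

lemma ratio (P : Finset ℕ) (x : ℕ → ℝ) (hx : ∀ p ∈ P, |x p| ≤ 1 / 2) (u : ℝ) (hu : u ≤ 1)
    (h : |∑ p ∈ P, x p| + 2 * ∑ p ∈ P, x p ^ 2 ≤ u) : |∏ p ∈ P, (1 + x p) - 1| ≤ 2 * u := by
  have hS2 : 0 ≤ ∑ p ∈ P, x p ^ 2 := Finset.sum_nonneg fun p _ => sq_nonneg _
  have hu0 : 0 ≤ u := le_trans (by positivity) h
  have h0 : ∀ p ∈ P, 0 ≤ 1 + x p := fun p hp => by
    have := abs_le.1 (hx p hp)
    linarith
  have hup : ∏ p ∈ P, (1 + x p) ≤ Real.exp (∑ p ∈ P, x p) := by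
    rw [Real.exp_sum]
    refine Finset.prod_le_prod h0 fun p _ => ?_
    rw [add_comm]
    exact Real.add_one_le_exp _
  have hlo : Real.exp (∑ p ∈ P, x p - 2 * ∑ p ∈ P, x p ^ 2) ≤ ∏ p ∈ P, (1 + x p) := by
    rw [Finset.mul_sum, ← Finset.sum_sub_distrib, Real.exp_sum]
    exact Finset.prod_le_prod (fun p _ => (Real.exp_pos _).le) fun p hp => low _ (hx p hp)
  have h1 := abs_le.1 (le_refl |∑ p ∈ P, x p|)
  have h2 : Real.exp (∑ p ∈ P, x p) ≤ Real.exp u := Real.exp_le_exp.2 (by linarith)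
  have h3 : Real.exp u - 1 ≤ 2 * u := by
    have := Real.abs_exp_sub_one_le (x := u) (by rw [abs_of_nonneg hu0]; exact hu)
    rw [abs_of_nonneg hu0] at this
    exact (le_abs_self _).trans this
  have h4 := Real.add_one_le_exp (∑ p ∈ P, x p - 2 * ∑ p ∈ P, x p ^ 2)
  rw [abs_le]
  constructor <;> linarith

lemma Sg_split (G : Polynomial ℤ) (c : ℤ) {z Z : ℕ} (h : z ≤ Z) (b : ℕ) :
    Sg G (b : ℤ) c Z = Sg G (b : ℤ) c z * ∏ p ∈ (Ioc z Z).filter Nat.Prime, (1 + xx G c p b) := by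
  rw [Sg_eq, Sg_eq, ← Finset.prod_union]
  · refine Finset.prod_congr ?_ fun _ _ => rfl
    rw [← Finset.filter_union, Finset.Ioc_union_Ioc_eq_Ioc (by omega) h]
  · refine Finset.disjoint_filter_filter ?_
    rw [Finset.disjoint_left]
    intro a ha hb
    rw [mem_Ioc] at ha hb
    omega

theorem t_TLS : S_TLS := by
  classical
  intro G c hG hc ε hε
  set E : ℝ := (G.natDegree + 1 : ℝ) with hE
  have hE1 : 1 ≤ E := by rw [hE]; have : (0 : ℝ) ≤ (G.natDegree : ℝ) := by positivity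
                         linarith
  set C : ℝ := 3 * Real.exp 1 with hC
  have hC0 : 0 < C := by positivity
  set K0 : ℝ := 2 * C / ε with hK0
  have hK0p : 0 < K0 := by positivity
  set δ : ℝ := min (1 / 4) (ε / (4 * K0)) with hδ
  have hδ0 : 0 < δ := lt_min (by norm_num) (by positivity)
  have hδ1 : δ ≤ 1 / 4 := min_le_left _ _
  have hδ2 : 4 * K0 * δ ≤ ε := by
    have : δ ≤ ε / (4 * K0) := min_le_right _ _
    rw [le_div_iff₀ (by positivity)] at this
    linarith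
  refine ⟨c.natAbs + 2 + ⌈2 * E⌉₊ + ⌈4 * E ^ 2 / δ⌉₊ + ⌈16 * E ^ 2 / (ε * δ ^ 2)⌉₊,
    fun z hz A => ?_⟩
  have hz2 : 2 ≤ z := by omega
  have hzr : (2 : ℝ) ≤ z := by exact_mod_cast hz2
  have hcz : ∀ p : ℕ, p.Prime → z < p → ¬ (p : ℤ) ∣ c := by
    intro p _ hzp hd
    have h1 : p ∣ c.natAbs := Int.natCast_dvd.1 hd
    have h2 := Nat.le_of_dvd (Int.natAbs_pos.2 hc) h1
    omega
  have hzE : 2 * E ≤ z := by
    refine (Nat.le_ceil _).trans ?_
    exact_mod_cast (by omega : ⌈2 * E⌉₊ ≤ z)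
  have hzE2 : 4 * E ^ 2 / δ ≤ z := by
    refine (Nat.le_ceil _).trans ?_
    exact_mod_cast (by omega : ⌈4 * E ^ 2 / δ⌉₊ ≤ z)
  have hzE3 : 16 * E ^ 2 / (ε * δ ^ 2) ≤ z := by
    refine (Nat.le_ceil _).trans ?_
    exact_mod_cast (by omega : ⌈16 * E ^ 2 / (ε * δ ^ 2)⌉₊ ≤ z)
  obtain ⟨B1, hB1⟩ := avs G c z
  -- powers of the logarithm
  have hlog : ∃ B2 : ℕ, ∀ B : ℕ, B2 ≤ B → Real.log B ^ (2 * A) ≤ ε * δ ^ 2 / (20 * E ^ 2) * B := by
    have h1 := (Real.isLittleO_pow_log_id_atTop (n := 2 * A)).bound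
      (show 0 < ε * δ ^ 2 / (20 * E ^ 2) by positivity)
    have h2 := (tendsto_natCast_atTop_atTop (R := ℝ)).eventually h1
    obtain ⟨B2, hB2⟩ := Filter.eventually_atTop.1 h2
    refine ⟨B2, fun B hB => ?_⟩
    have := hB2 B hB
    simp only [id, Real.norm_eq_abs, Nat.abs_cast] at this
    exact (le_abs_self _).trans this
  obtain ⟨B2, hB2⟩ := hlog
  refine ⟨B1 + B2 + 1, fun B hB Z hzZ hZ => ?_⟩
  have hBr : (1 : ℝ) ≤ B := by exact_mod_cast (by omega : 1 ≤ B)
  set P := (Ioc z Z).filter Nat.Prime with hP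
  have hPp : ∀ p ∈ P, p.Prime := fun p hp => (Finset.mem_filter.1 hp).2
  have hPz : ∀ p ∈ P, z < p := fun p hp => (mem_Ioc.1 (Finset.mem_filter.1 hp).1).1
  have hPr : ∀ p ∈ P, (z : ℝ) ≤ (p : ℝ) - 1 := fun p hp => by
    have h1 : z + 1 ≤ p := hPz p hp
    have h2 : ((z : ℝ) + 1) ≤ p := by exact_mod_cast h1
    linarith
  -- the pointwise estimate
  have hpt : ∀ b : ℕ, Sg G (b : ℤ) c z ≤ K0 → |∑ p ∈ P, xx G c p b| ≤ δ →
      |Sg G (b : ℤ) c Z - Sg G (b : ℤ) c z| ≤ ε := by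
    intro b hb1 hb2
    have hx : ∀ p ∈ P, |xx G c p b| ≤ 1 / 2 := fun p hp => by
      refine (xx_abs G c (hPp p hp) (hcz p (hPp p hp) (hPz p hp)) b).trans ?_
      have h1 := hPr p hp
      rw [div_le_iff₀ (by linarith)]
      linarith
    have hsq : ∑ p ∈ P, xx G c p b ^ 2 ≤ 2 * E ^ 2 / z := by
      calc ∑ p ∈ P, xx G c p b ^ 2 ≤ ∑ p ∈ P, 2 * E ^ 2 * (1 / ((p : ℝ) * (p - 1))) := by
            refine Finset.sum_le_sum fun p hp => ?_
            have h1 := hPr p hp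
            have h3 : (0 : ℝ) < (p : ℝ) - 1 := by linarith
            have hp0 : (0 : ℝ) < p := by linarith
            calc xx G c p b ^ 2 = |xx G c p b| ^ 2 := (sq_abs _).symm
              _ ≤ (E / ((p : ℝ) - 1)) ^ 2 := pow_le_pow_left₀ (abs_nonneg _)
                  (xx_abs G c (hPp p hp) (hcz p (hPp p hp) (hPz p hp)) b) 2
              _ = E ^ 2 * (1 / ((p : ℝ) - 1) ^ 2) := by field_simp
              _ ≤ E ^ 2 * (2 * (1 / ((p : ℝ) * (p - 1)))) := by
                  refine mul_le_mul_of_nonneg_left ?_ (by positivity)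
                  rw [mul_one_div, div_le_div_iff₀ (by positivity) (by positivity)]
                  nlinarith
              _ = _ := by ring
        _ = 2 * E ^ 2 * ∑ p ∈ P, 1 / ((p : ℝ) * (p - 1)) := by rw [Finset.mul_sum]
        _ ≤ 2 * E ^ 2 * (1 / z) :=
            mul_le_mul_of_nonneg_left (tel_prime z (by omega) Z) (by positivity)
        _ = _ := by ring
    have hzδ : 4 * E ^ 2 / z ≤ δ := by
      rw [div_le_iff₀ hδ0] at hzE2
      rw [div_le_iff₀ (by linarith)]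
      linarith
    have h4 : 2 * (2 * E ^ 2 / z) = 4 * E ^ 2 / z := by ring
    have hR := ratio P (fun p => xx G c p b) hx (2 * δ) (by linarith) (by linarith)
    rw [Sg_split G c hzZ b]
    have h5 : Sg G (b : ℤ) c z * ∏ p ∈ P, (1 + xx G c p b) - Sg G (b : ℤ) c z =
        Sg G (b : ℤ) c z * (∏ p ∈ P, (1 + xx G c p b) - 1) := by ring
    rw [h5, abs_mul, abs_of_nonneg (Sg_nonneg G c z b)]
    calc Sg G (b : ℤ) c z * |∏ p ∈ P, (1 + xx G c p b) - 1| ≤ K0 * (2 * (2 * δ)) :=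
          mul_le_mul hb1 hR (abs_nonneg _) hK0p.le
      _ = 4 * K0 * δ := by ring
      _ ≤ ε := hδ2
  -- the exceptional sets
  have hsub : (Icc 1 B).filter (fun b : ℕ => ε < |Sg G b c Z - Sg G b c z|) ⊆
      (Icc 1 B).filter (fun b : ℕ => K0 < Sg G b c z) ∪
      (Icc 1 B).filter (fun b : ℕ => δ < |∑ p ∈ P, xx G c p b|) := by
    intro b hb
    rw [mem_filter] at hb
    rw [mem_union, mem_filter, mem_filter]
    by_contra hcon
    push Not at hcon
    have h1 := hcon.1 hb.1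
    have h2 := hcon.2 hb.1
    exact absurd (hpt b h1 h2) (not_le.2 hb.2)
  have hA : (((Icc 1 B).filter (fun b : ℕ => K0 < Sg G b c z)).card : ℝ) ≤ ε / 2 * B := by
    have h1 : (((Icc 1 B).filter (fun b : ℕ => K0 < Sg G b c z)).card : ℝ) * K0 ≤ C * B := by
      calc (((Icc 1 B).filter (fun b : ℕ => K0 < Sg G b c z)).card : ℝ) * K0
          = ∑ b ∈ (Icc 1 B).filter (fun b : ℕ => K0 < Sg G b c z), K0 := by
            rw [Finset.sum_const, nsmul_eq_mul]
        _ ≤ ∑ b ∈ (Icc 1 B).filter (fun b : ℕ => K0 < Sg G b c z), Sg G (b : ℤ) c z :=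
            Finset.sum_le_sum fun b hb => (Finset.mem_filter.1 hb).2.le
        _ ≤ ∑ b ∈ Icc 1 B, Sg G (b : ℤ) c z :=
            Finset.sum_le_sum_of_subset_of_nonneg (Finset.filter_subset _ _)
              fun b _ _ => Sg_nonneg G c z b
        _ ≤ C * B := hB1 B (by omega)
    have h2 : C = K0 * (ε / 2) := by rw [hK0]; field_simp
    rw [h2] at h1
    have h3 : (((Icc 1 B).filter (fun b : ℕ => K0 < Sg G b c z)).card : ℝ) * K0 ≤
        (ε / 2 * B) * K0 := by linarith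
    exact le_of_mul_le_mul_right h3 hK0p
  have hBb : (((Icc 1 B).filter (fun b : ℕ => δ < |∑ p ∈ P, xx G c p b|)).card : ℝ) ≤
      ε / 2 * B := by
    have h1 : (((Icc 1 B).filter (fun b : ℕ => δ < |∑ p ∈ P, xx G c p b|)).card : ℝ) * δ ^ 2 ≤
        ((B : ℝ) + 1) / z + 2 * E ^ 2 * B / z + 5 * E ^ 2 * Z ^ 2 := by
      calc (((Icc 1 B).filter (fun b : ℕ => δ < |∑ p ∈ P, xx G c p b|)).card : ℝ) * δ ^ 2
          = ∑ b ∈ (Icc 1 B).filter (fun b : ℕ => δ < |∑ p ∈ P, xx G c p b|), δ ^ 2 := by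
            rw [Finset.sum_const, nsmul_eq_mul]
        _ ≤ ∑ b ∈ (Icc 1 B).filter (fun b : ℕ => δ < |∑ p ∈ P, xx G c p b|),
              (∑ p ∈ P, xx G c p b) ^ 2 := by
            refine Finset.sum_le_sum fun b hb => ?_
            rw [← sq_abs (∑ p ∈ P, xx G c p b)]
            exact pow_le_pow_left₀ hδ0.le (Finset.mem_filter.1 hb).2.le 2
        _ ≤ ∑ b ∈ Icc 1 B, (∑ p ∈ P, xx G c p b) ^ 2 :=
            Finset.sum_le_sum_of_subset_of_nonneg (Finset.filter_subset _ _)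
              fun b _ _ => sq_nonneg _
        _ ≤ _ := second G c z Z B hz2 hcz
    have hz0 : (0 : ℝ) < z := by linarith
    have h2 : ((B : ℝ) + 1) / z + 2 * E ^ 2 * B / z ≤ ε / 4 * B * δ ^ 2 := by
      rw [← add_div, div_le_iff₀ hz0]
      have h3 : 16 * E ^ 2 ≤ z * (ε * δ ^ 2) := by
        rwa [div_le_iff₀ (by positivity)] at hzE3
      have h4 : (1 : ℝ) ≤ E ^ 2 := one_le_pow₀ hE1
      have h5 : (B : ℝ) + 1 + 2 * E ^ 2 * B ≤ 4 * E ^ 2 * B := by nlinarith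
      have h6 : 16 * E ^ 2 * B ≤ z * (ε * δ ^ 2) * B :=
        mul_le_mul_of_nonneg_right h3 (by positivity)
      nlinarith
    have h7 : 5 * E ^ 2 * (Z : ℝ) ^ 2 ≤ ε / 4 * B * δ ^ 2 := by
      have h8 : (Z : ℝ) ^ 2 ≤ Real.log B ^ (2 * A) := by
        rw [mul_comm 2 A, pow_mul]
        exact pow_le_pow_left₀ (by positivity) hZ 2
      have h9 := hB2 B (by omega)
      have h10 : (Z : ℝ) ^ 2 ≤ ε * δ ^ 2 / (20 * E ^ 2) * B := h8.trans h9
      calc 5 * E ^ 2 * (Z : ℝ) ^ 2 ≤ 5 * E ^ 2 * (ε * δ ^ 2 / (20 * E ^ 2) * B) :=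
            mul_le_mul_of_nonneg_left h10 (by positivity)
        _ = ε / 4 * B * δ ^ 2 := by
            have : E ≠ 0 := by linarith
            field_simp
            ring
    have h11 : (((Icc 1 B).filter (fun b : ℕ => δ < |∑ p ∈ P, xx G c p b|)).card : ℝ) * δ ^ 2 ≤
        (ε / 2 * B) * δ ^ 2 := by linarith
    exact le_of_mul_le_mul_right h11 (by positivity)
  calc (((Icc 1 B).filter (fun b : ℕ => ε < |Sg G b c Z - Sg G b c z|)).card : ℝ)
      ≤ (((Icc 1 B).filter (fun b : ℕ => K0 < Sg G b c z) ∪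
          (Icc 1 B).filter (fun b : ℕ => δ < |∑ p ∈ P, xx G c p b|)).card : ℝ) := by
        exact_mod_cast Finset.card_le_card hsub
    _ ≤ (((Icc 1 B).filter (fun b : ℕ => K0 < Sg G b c z)).card : ℝ) +
          (((Icc 1 B).filter (fun b : ℕ => δ < |∑ p ∈ P, xx G c p b|)).card : ℝ) := by
        exact_mod_cast Finset.card_union_le _ _
    _ ≤ ε * B := by linarith

end Pool.Agent.N170.QG
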